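import Pool.Agent.H92.PK.Los2
import Pool.Agent.H92.PK.Pres

/-!
# OM: `ω` and quantifiers over `ω` in the quotients
-/

set_option autoImplicit false

namespace HM

open BV PK

variable {B : Type} [CompleteBooleanAlgebra B]

/-- `ω` of the quotient -/
noncomputable def om (U : UF B) : MU U := ck U Ordinal.omega0

/-- the standard natural number `n` of the quotient -/
noncomputable def nn (U : UF B) (n : ℕ) : MU U := ck U (n : Ordinal.{0})

theorem E_nn (U : UF B) (m n : ℕ) : MU.E U (nn U m) (nn U n) ↔ m < n := by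
  unfold nn
  rw [E_ck]
  exact Nat.cast_lt

theorem E_nn_om (U : UF B) (n : ℕ) : MU.E U (nn U n) (om U) :=
  (E_ck U _ _).2 (Ordinal.natCast_lt_omega0 n)

theorem nn_inj (U : UF B) {m n : ℕ} (h : nn U m = nn U n) : m = n := by
  have h1 : (m : Ordinal.{0}) = (n : Ordinal.{0}) := ck_inj U h
  exact_mod_cast h1

/-- `pres_fin` -/
theorem mem_nn (U : UF B) (n : ℕ) (x : MU U) (hx : MU.E U x (nn U n)) : ∃ k < n, x = nn U k :=
  pres_fin U n x hx

/-- like `PK.isOmega_ck`, but no hypothesis is needed: that no element of `ω` is an infinite cardinal is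
`pres_not_infCard_fin`, and `ω` does not inject into a natural number by `no_inj_finite` -/
theorem isOmega_om (U : UF B) : IsOmega (MU.E U) (om U) := by
  refine ⟨⟨isOrd_ck U _, ⟨nn U 0, E_nn_om U 0⟩, ?_, ?_⟩, ?_⟩
  · intro β hβ
    refine ball_ck (f := fun x => ⨆ γ, bmem γ (chk B Ordinal.omega0) ⊓ bmem x γ)
      (P := fun U β => ∃ γ, MU.E U γ (ck U Ordinal.omega0) ∧ MU.E U β γ) (fun V x => ?_)
      Ordinal.omega0 ?_ U β hβ
    · refine card_iSup (P := fun V γ => MU.E V γ (ck V Ordinal.omega0) ∧ MU.E V (MU.mk V x) γ)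
        (fun V γ => ?_) V
      rw [UF.inf_mem_iff]
      exact Iff.rfl
    · intro V α hα
      obtain ⟨n, rfl⟩ := Ordinal.lt_omega0.1 hα
      exact ⟨nn V (n + 1), E_nn_om V (n + 1), (E_nn V n (n + 1)).2 (Nat.lt_succ_self n)⟩
  · intro β hβ
    refine ball_ck (f := fun x => ⨅ f, (bInjOn f (fun z => bmem z (chk B Ordinal.omega0))
      (fun z => bmem z x))ᶜ)
      (P := fun U β => ∀ f, ¬ InjOn (MU.E U) f (fun z => MU.E U z (ck U Ordinal.omega0))
        (fun z => MU.E U z β)) (fun V x => ?_) Ordinal.omega0 ?_ U β hβ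
    · refine card_iInf (P := fun V f => ¬ InjOn (MU.E V) f
        (fun z => MU.E V z (ck V Ordinal.omega0)) (fun z => MU.E V z (MU.mk V x)))
        (fun V f => ?_) V
      rw [UF.compl_mem_iff]
      refine not_congr ?_
      exact los_injOn (X' := fun V z => MU.E V z (ck V Ordinal.omega0))
        (Y' := fun V z => MU.E V z (MU.mk V x)) (fun U x => Iff.rfl) (fun U x => Iff.rfl) V f
    · intro V α hα f hf
      obtain ⟨n, rfl⟩ := Ordinal.lt_omega0.1 hα
      refine no_inj_finite V Cardinal.aleph0 le_rfl n f ?_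
      rw [Cardinal.ord_aleph0]
      exact hf
  · intro x hx
    refine ball_ck (f := fun x => (bInfCard x)ᶜ) (P := fun U x => ¬ InfCard (MU.E U) x)
      (fun V x => ?_) Ordinal.omega0 ?_ U x hx
    · rw [UF.compl_mem_iff, los_infCard]
    · intro V α hα
      obtain ⟨n, rfl⟩ := Ordinal.lt_omega0.1 hα
      exact pres_not_infCard_fin V n

/-- definable properties have Boolean values: `exists_bool` with `FDef2.ofDef` (rename the
variables, or use `scons`) -/
theorem exists_val {P : ∀ (M : Type 1), (M → M → Prop) → (ℕ → M) → Prop} (hP : FDef P)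
    (w : ℕ → BSet B) : ∃ b : B, ∀ U : UF B,
      b ∈ U ↔ P (MU U) (MU.E U) (fun n => MU.mk U (w n)) := by
  obtain ⟨φ, hφ⟩ := hP
  exact ⟨val φ w, fun U => (los_fml φ U w).trans (hφ _ _ _)⟩

/-- to prove a definable property for all elements of `ω` in all quotients with `b ∈ U` it is enough to
prove it for the standard natural numbers: `exists_bool`, `ball_ck'` -/
theorem ball_om {P : ∀ (M : Type 1), (M → M → Prop) → (ℕ → M) → Prop} (hP : FDef P)
    (w : ℕ → BSet B) (b : B)
    (h : ∀ (U : UF B), b ∈ U → ∀ n : ℕ,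
      P (MU U) (MU.E U) (scons (nn U n) (fun n => MU.mk U (w n))))
    (U : UF B) (hb : b ∈ U) (m : MU U) (hm : MU.E U m (om U)) :
    P (MU U) (MU.E U) (scons m (fun n => MU.mk U (w n))) := by
  obtain ⟨f, -, hfP⟩ := exists_bool (FDef2.ofDef hP) w
  refine ball_ck' (P := fun U m => P (MU U) (MU.E U) (scons m (fun n => MU.mk U (w n))))
    hfP Ordinal.omega0 b ?_ U hb m hm
  intro V hV β hβ
  obtain ⟨n, rfl⟩ := Ordinal.lt_omega0.1 hβ
  exact h V hV n

/-- the Boolean value of `∃ m ∈ ω, P m` is at most the supremum of the values of `P n`, `n` standard -/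
theorem bex_om {P : ∀ (M : Type 1), (M → M → Prop) → (ℕ → M) → Prop} (hP : FDef P)
    (w : ℕ → BSet B) (c : ℕ → B)
    (h : ∀ (U : UF B) (n : ℕ), P (MU U) (MU.E U) (scons (nn U n) (fun n => MU.mk U (w n))) →
      c n ∈ U)
    (U : UF B) (hU : ∃ m, MU.E U m (om U) ∧
      P (MU U) (MU.E U) (scons m (fun n => MU.mk U (w n)))) : (⨆ n, c n) ∈ U := by
  by_contra hc
  obtain ⟨m, hm, hPm⟩ := hU
  refine ball_om (FDef.not hP) w (⨆ n, c n)ᶜ ?_ U (U.compl_mem_iff.2 hc) m hm hPm
  intro V hV n hn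
  exact V.compl_mem_iff.1 hV (V.mem_of_le (h V n hn) (le_iSup c n))

/-- conversely -/
theorem bex_om' {P : ∀ (M : Type 1), (M → M → Prop) → (ℕ → M) → Prop} (hP : FDef P)
    (w : ℕ → BSet B) (c : ℕ → B)
    (h : ∀ (U : UF B) (n : ℕ), c n ∈ U →
      P (MU U) (MU.E U) (scons (nn U n) (fun n => MU.mk U (w n))))
    (U : UF B) (hU : (⨆ n, c n) ∈ U) : ∃ m, MU.E U m (om U) ∧
      P (MU U) (MU.E U) (scons m (fun n => MU.mk U (w n))) := by
  obtain ⟨f, -, hfP⟩ := exists_bool (FDef2.ofDef hP) w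
  have h1 : ∀ V : UF B, (⨆ x, bmem x (chk B Ordinal.omega0) ⊓ f x) ∈ V ↔
      ∃ m, MU.E V m (om V) ∧ P (MU V) (MU.E V) (scons m (fun n => MU.mk V (w n))) := by
    intro V
    refine card_iSup (P := fun V m => MU.E V m (om V) ∧
      P (MU V) (MU.E V) (scons m (fun n => MU.mk V (w n)))) (fun V x => ?_) V
    rw [UF.inf_mem_iff, hfP]
    exact Iff.rfl
  rw [← h1]
  refine U.mem_of_le hU (iSup_le fun n => UF.le_of_forall fun V hV => ?_)
  rw [h1]
  exact ⟨nn V n, E_nn_om V n, h V n hV⟩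

end HM
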