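import Pool.Agent.H71.HM.Defs
import Pool.Agent.H92.PK.Notn

/-!
# FD: the notions of the statement are definable

Same pattern as `Pool.Agent.H92.PK.Notn`: unfold the notion and apply the rules of `FDef`.
-/

set_option autoImplicit false

universe v

namespace HM

open BV PK

theorem def_isReal (i j : ℕ) : FDef fun (M : Type v) E w => IsReal E (w i) (w j) :=
  FDef.all (P := fun _ E w => E (w 0) (w (j + 1)) → E (w 0) (w (i + 1)))
    ((FDef.mem 0 (j + 1)).imp (FDef.mem 0 (i + 1)))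

theorem def_unbdd (i j : ℕ) : FDef fun (M : Type v) E w => Unbdd E (w i) (w j) :=
  FDef.all (P := fun _ E w => E (w 0) (w (i + 1)) →
      ∃ n, E n (w (i + 1)) ∧ E (w 0) n ∧ E n (w (j + 1)))
    ((FDef.mem 0 (i + 1)).imp
      (FDef.ex (P := fun _ E w => E (w 0) (w (i + 2)) ∧ E (w 1) (w 0) ∧ E (w 0) (w (j + 2)))
        ((FDef.mem 0 (i + 2)).and ((FDef.mem 1 0).and (FDef.mem 0 (j + 2))))))

theorem def_almostSub (i j k : ℕ) :
    FDef fun (M : Type v) E w => AlmostSub E (w i) (w j) (w k) :=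
  FDef.ex (P := fun _ E w => E (w 0) (w (i + 1)) ∧
      ∀ n, E n (w (i + 1)) → E (w 0) n → E n (w (j + 1)) → E n (w (k + 1)))
    ((FDef.mem 0 (i + 1)).and
      (FDef.all (P := fun _ E w => E (w 0) (w (i + 2)) → E (w 1) (w 0) →
          E (w 0) (w (j + 2)) → E (w 0) (w (k + 2)))
        ((FDef.mem 0 (i + 2)).imp ((FDef.mem 1 0).imp
          ((FDef.mem 0 (j + 2)).imp (FDef.mem 0 (k + 2)))))))

theorem def_isFin (i : ℕ) : FDef fun (M : Type v) E w => IsFin E (w i) :=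
  FDef.all (P := fun _ E w => (∀ e, (∀ z, ¬ E z e) → E e (w 0)) →
      (∀ A a A', E A (w 0) → E a (w (i + 1)) → (∀ z, E z A' ↔ E z A ∨ z = a) → E A' (w 0)) →
        E (w (i + 1)) (w 0))
    ((FDef.all (P := fun _ E w => (∀ z, ¬ E z (w 0)) → E (w 0) (w 1))
        ((FDef.all (P := fun _ E w => ¬ E (w 0) (w 1)) (FDef.mem 0 1).not).imp
          (FDef.mem 0 1))).imp
      ((FDef.all (P := fun _ E w => ∀ a A', E (w 0) (w 1) → E a (w (i + 2)) →
          (∀ z, E z A' ↔ E z (w 0) ∨ z = a) → E A' (w 1))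
        (FDef.all (P := fun _ E w => ∀ A', E (w 1) (w 2) → E (w 0) (w (i + 3)) →
            (∀ z, E z A' ↔ E z (w 1) ∨ z = w 0) → E A' (w 2))
          (FDef.all (P := fun _ E w => E (w 2) (w 3) → E (w 1) (w (i + 4)) →
              (∀ z, E z (w 0) ↔ E z (w 2) ∨ z = w 1) → E (w 0) (w 3))
            ((FDef.mem 2 3).imp ((FDef.mem 1 (i + 4)).imp
              ((FDef.all (P := fun _ E w => E (w 0) (w 1) ↔ E (w 0) (w 3) ∨ w 0 = w 2)
                ((FDef.mem 0 1).iff ((FDef.mem 0 3).or (FDef.eq 0 2)))).imp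
                (FDef.mem 0 3))))))).imp
        (FDef.mem (i + 1) 0)))

theorem def_sfip (i j : ℕ) : FDef fun (M : Type v) E w => SFIP E (w i) (w j) :=
  FDef.all (P := fun _ E w => IsFin E (w 0) → (∀ A, E A (w 0) → E A (w (j + 1))) →
      ∀ m, E m (w (i + 1)) → ∃ n, E n (w (i + 1)) ∧ E m n ∧ ∀ A, E A (w 0) → E n A)
    ((def_isFin 0).imp
      ((FDef.all (P := fun _ E w => E (w 0) (w 1) → E (w 0) (w (j + 2)))
        ((FDef.mem 0 1).imp (FDef.mem 0 (j + 2)))).imp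
        (FDef.all (P := fun _ E w => E (w 0) (w (i + 2)) →
            ∃ n, E n (w (i + 2)) ∧ E (w 0) n ∧ ∀ A, E A (w 1) → E n A)
          ((FDef.mem 0 (i + 2)).imp
            (FDef.ex (P := fun _ E w => E (w 0) (w (i + 3)) ∧ E (w 1) (w 0) ∧
                ∀ A, E A (w 2) → E (w 0) A)
              ((FDef.mem 0 (i + 3)).and ((FDef.mem 1 0).and
                (FDef.all (P := fun _ E w => E (w 0) (w 3) → E (w 1) (w 0))
                  ((FDef.mem 0 3).imp (FDef.mem 1 0))))))))))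

theorem def_isPseudo (i j k : ℕ) :
    FDef fun (M : Type v) E w => IsPseudo E (w i) (w j) (w k) :=
  (def_isReal i j).and ((def_unbdd i j).and
    (FDef.all (P := fun _ E w => E (w 0) (w (k + 1)) → AlmostSub E (w (i + 1)) (w (j + 1)) (w 0))
      ((FDef.mem 0 (k + 1)).imp (def_almostSub (i + 1) (j + 1) 0))))

theorem def_agree (i j k : ℕ) : FDef fun (M : Type v) E w => Agree E (w i) (w j) (w k) :=
  FDef.all (P := fun _ E w => E (w 0) (w (i + 1)) → (E (w 0) (w (j + 1)) ↔ E (w 0) (w (k + 1))))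
    ((FDef.mem 0 (i + 1)).imp ((FDef.mem 0 (j + 1)).iff (FDef.mem 0 (k + 1))))

theorem def_mulLe (i j k : ℕ) : FDef fun (M : Type v) E w => MulLe E (w i) (w j) (w k) :=
  FDef.ex (P := fun _ E w =>
      (∀ i' j' p, E i' (w (i + 1)) → (E j' (w (j + 1)) ∨ j' = w (j + 1)) → IsOPair E p i' j' →
        ∃ k', E k' (w (k + 1)) ∧ App E (w 0) p k') ∧
      (∀ p k' k'', App E (w 0) p k' → App E (w 0) p k'' → k' = k'') ∧
      (∀ p p' k', App E (w 0) p k' → App E (w 0) p' k' → p = p'))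
    ((FDef.all (P := fun _ E w => ∀ j' p, E (w 0) (w (i + 2)) →
        (E j' (w (j + 2)) ∨ j' = w (j + 2)) → IsOPair E p (w 0) j' →
        ∃ k', E k' (w (k + 2)) ∧ App E (w 1) p k')
      (FDef.all (P := fun _ E w => ∀ p, E (w 1) (w (i + 3)) →
          (E (w 0) (w (j + 3)) ∨ w 0 = w (j + 3)) → IsOPair E p (w 1) (w 0) →
          ∃ k', E k' (w (k + 3)) ∧ App E (w 2) p k')
        (FDef.all (P := fun _ E w => E (w 2) (w (i + 4)) →
            (E (w 1) (w (j + 4)) ∨ w 1 = w (j + 4)) → IsOPair E (w 0) (w 2) (w 1) →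
            ∃ k', E k' (w (k + 4)) ∧ App E (w 3) (w 0) k')
          ((FDef.mem 2 (i + 4)).imp (((FDef.mem 1 (j + 4)).or (FDef.eq 1 (j + 4))).imp
            ((def_isOPair 0 2 1).imp
              (FDef.ex (P := fun _ E w => E (w 0) (w (k + 5)) ∧ App E (w 4) (w 1) (w 0))
                ((FDef.mem 0 (k + 5)).and (def_app 4 1 0))))))))).and
      ((FDef.all (P := fun _ E w => ∀ k' k'', App E (w 1) (w 0) k' → App E (w 1) (w 0) k'' →
          k' = k'')
        (FDef.all (P := fun _ E w => ∀ k'', App E (w 2) (w 1) (w 0) → App E (w 2) (w 1) k'' →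
            w 0 = k'')
          (FDef.all (P := fun _ E w => App E (w 3) (w 2) (w 1) → App E (w 3) (w 2) (w 0) →
              w 1 = w 0)
            ((def_app 3 2 1).imp ((def_app 3 2 0).imp (FDef.eq 1 0)))))).and
        (FDef.all (P := fun _ E w => ∀ p' k', App E (w 1) (w 0) k' → App E (w 1) p' k' →
            w 0 = p')
          (FDef.all (P := fun _ E w => ∀ k', App E (w 2) (w 1) k' → App E (w 2) (w 0) k' →
              w 1 = w 0)
            (FDef.all (P := fun _ E w => App E (w 3) (w 2) (w 0) → App E (w 3) (w 1) (w 0) →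
                w 2 = w 1)
              ((def_app 3 2 0).imp ((def_app 3 1 0).imp (FDef.eq 2 1))))))))

theorem def_isFun (i : ℕ) : FDef fun (M : Type v) E w => IsFun E (w i) :=
  FDef.all (P := fun _ E w => ∀ a a', App E (w (i + 1)) (w 0) a → App E (w (i + 1)) (w 0) a' →
      a = a')
    (FDef.all (P := fun _ E w => ∀ a', App E (w (i + 2)) (w 1) (w 0) →
        App E (w (i + 2)) (w 1) a' → w 0 = a')
      (FDef.all (P := fun _ E w => App E (w (i + 3)) (w 2) (w 1) →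
          App E (w (i + 3)) (w 2) (w 0) → w 1 = w 0)
        ((def_app (i + 3) 2 1).imp ((def_app (i + 3) 2 0).imp (FDef.eq 1 0)))))

theorem def_inBox (i j k l m n : ℕ) :
    FDef fun (M : Type v) E w => InBox E (w i) (w j) (w k) (w l) (w m) (w n) :=
  FDef.ex (P := fun _ E w => ∃ a n', IsOPair E (w 0) (w (l + 1)) (w (m + 1)) ∧
      App E (w (k + 1)) (w 0) a ∧ E n' (w (i + 1)) ∧ MulLe E (w (j + 1)) (w (l + 1)) n' ∧
      Agree E n' (w (n + 1)) a)
    (FDef.ex (P := fun _ E w => ∃ n', IsOPair E (w 1) (w (l + 2)) (w (m + 2)) ∧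
        App E (w (k + 2)) (w 1) (w 0) ∧ E n' (w (i + 2)) ∧ MulLe E (w (j + 2)) (w (l + 2)) n' ∧
        Agree E n' (w (n + 2)) (w 0))
      (FDef.ex (P := fun _ E w => IsOPair E (w 2) (w (l + 3)) (w (m + 3)) ∧
          App E (w (k + 3)) (w 2) (w 1) ∧ E (w 0) (w (i + 3)) ∧
          MulLe E (w (j + 3)) (w (l + 3)) (w 0) ∧ Agree E (w 0) (w (n + 3)) (w 1))
        ((def_isOPair 2 (l + 3) (m + 3)).and ((def_app (k + 3) 2 1).and
          ((FDef.mem 0 (i + 3)).and ((def_mulLe (j + 3) (l + 3) 0).and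
            (def_agree 0 (n + 3) 1)))))))

theorem def_isIdx (i j k : ℕ) : FDef fun (M : Type v) E w => IsIdx E (w i) (w j) (w k) :=
  (FDef.mem j i).and
    (FDef.all (P := fun _ E w => E (w 0) (w (k + 1)) → E (w 0) (w (j + 1)))
      ((FDef.mem 0 (k + 1)).imp (FDef.mem 0 (j + 1))))

/-- `w i = ω`, `w j = K`, `w k = f`, `w l = y` -/
theorem def_pt1 (i j k l : ℕ) : FDef fun (M : Type v) E w =>
    ∃ m s, IsIdx E (w i) m s ∧ InBox E (w i) (w j) (w k) m s (w l) :=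
  FDef.ex (P := fun _ E w => ∃ s, IsIdx E (w (i + 1)) (w 0) s ∧
      InBox E (w (i + 1)) (w (j + 1)) (w (k + 1)) (w 0) s (w (l + 1)))
    (FDef.ex (P := fun _ E w => IsIdx E (w (i + 2)) (w 1) (w 0) ∧
        InBox E (w (i + 2)) (w (j + 2)) (w (k + 2)) (w 1) (w 0) (w (l + 2)))
      ((def_isIdx (i + 2) 1 0).and (def_inBox (i + 2) (j + 2) (k + 2) 1 0 (l + 2))))

/-- `w i = ω`, `w j = K`, `w k = Y` -/
theorem def_cov1 (i j k : ℕ) : FDef fun (M : Type v) E w =>
    ∃ f, IsFun E f ∧ ∀ y, E y (w k) → ∃ m s, IsIdx E (w i) m s ∧ InBox E (w i) (w j) f m s y :=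
  FDef.ex (P := fun _ E w => IsFun E (w 0) ∧ ∀ y, E y (w (k + 1)) →
      ∃ m s, IsIdx E (w (i + 1)) m s ∧ InBox E (w (i + 1)) (w (j + 1)) (w 0) m s y)
    ((def_isFun 0).and
      (FDef.all (P := fun _ E w => E (w 0) (w (k + 2)) →
          ∃ m s, IsIdx E (w (i + 2)) m s ∧ InBox E (w (i + 2)) (w (j + 2)) (w 1) m s (w 0))
        ((FDef.mem 0 (k + 2)).imp (def_pt1 (i + 2) (j + 2) 1 0))))

/-- `w i = ω`, `w j = K`, `w k = f`, `w l = g`, `w a = x`, `w b = y`, `w c = m` -/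
theorem def_pt2 (i j k l a b c : ℕ) : FDef fun (M : Type v) E w =>
    ∃ s, IsIdx E (w i) (w c) s ∧ InBox E (w i) (w j) (w k) (w c) s (w a) ∧
      InBox E (w i) (w j) (w l) (w c) s (w b) :=
  FDef.ex (P := fun _ E w => IsIdx E (w (i + 1)) (w (c + 1)) (w 0) ∧
      InBox E (w (i + 1)) (w (j + 1)) (w (k + 1)) (w (c + 1)) (w 0) (w (a + 1)) ∧
      InBox E (w (i + 1)) (w (j + 1)) (w (l + 1)) (w (c + 1)) (w 0) (w (b + 1)))
    ((def_isIdx (i + 1) (c + 1) 0).and
      ((def_inBox (i + 1) (j + 1) (k + 1) (c + 1) 0 (a + 1)).and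
        (def_inBox (i + 1) (j + 1) (l + 1) (c + 1) 0 (b + 1))))

/-- `w i = ω`, `w j = K`, `w k = f`, `w l = g`, `w a = X`, `w b = Y` -/
theorem def_cov2 (i j k l a b : ℕ) : FDef fun (M : Type v) E w =>
    IsFun E (w k) ∧ IsFun E (w l) ∧ ∀ x y, E x (w a) ∧ E y (w b) →
      ∃ m s, IsIdx E (w i) m s ∧ InBox E (w i) (w j) (w k) m s x ∧
        InBox E (w i) (w j) (w l) m s y :=
  (def_isFun k).and ((def_isFun l).and
    (FDef.all (P := fun _ E w => ∀ y, E (w 0) (w (a + 1)) ∧ E y (w (b + 1)) →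
        ∃ m s, IsIdx E (w (i + 1)) m s ∧
          InBox E (w (i + 1)) (w (j + 1)) (w (k + 1)) m s (w 0) ∧
          InBox E (w (i + 1)) (w (j + 1)) (w (l + 1)) m s y)
      (FDef.all (P := fun _ E w => E (w 1) (w (a + 2)) ∧ E (w 0) (w (b + 2)) →
          ∃ m s, IsIdx E (w (i + 2)) m s ∧
            InBox E (w (i + 2)) (w (j + 2)) (w (k + 2)) m s (w 1) ∧
            InBox E (w (i + 2)) (w (j + 2)) (w (l + 2)) m s (w 0))
        (((FDef.mem 1 (a + 2)).and (FDef.mem 0 (b + 2))).imp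
          (FDef.ex (P := fun _ E w => ∃ s, IsIdx E (w (i + 3)) (w 0) s ∧
              InBox E (w (i + 3)) (w (j + 3)) (w (k + 3)) (w 0) s (w 2) ∧
              InBox E (w (i + 3)) (w (j + 3)) (w (l + 3)) (w 0) s (w 1))
            (def_pt2 (i + 3) (j + 3) (k + 3) (l + 3) 2 1 0))))))

end HM
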