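import Pool.Agent.H71.HM.Om
import Pool.Agent.H71.HM.FD
import Pool.Agent.H71.HD.Defs

/-!
# NM: names of reals
-/

set_option autoImplicit false

namespace HM

open BV PK HD

variable {B : Type} [CompleteBooleanAlgebra B]

/-- name of the real with Boolean values `y n` of `n ∈ y` -/
noncomputable def rnm (y : ℕ → B) : BSet B := BSet.mk ℕ (fun n => chk B (n : Ordinal.{0})) y

/-- name of a ground model real -/
noncomputable def snm (x : ℕ → Bool) : BSet B := rnm (cb x)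

/-- name of a finite set of natural numbers -/
noncomputable def fnm (s : Finset ℕ) : BSet B := snm fun i => decide (i ∈ s)

/-- name of the set of the ground model reals -/
noncomputable def Xn (B : Type) [CompleteBooleanAlgebra B] : BSet B :=
  BSet.mk (ℕ → Bool) snm fun _ => ⊤

/-- name of the set of the reals `y` such that `Yv y` is the Boolean value of `y ∈ Y` -/
noncomputable def Yn (Yv : (ℕ → B) → B) : BSet B := BSet.mk (ℕ → B) rnm Yv

theorem nm_iSup {ι : Sort*} {f : ι → B} (i : ι) (h : ∀ j, j ≠ i → f j = ⊥) :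
    (⨆ j, f j) = f i := by
  apply le_antisymm
  · refine iSup_le fun j => ?_
    by_cases hj : j = i
    · rw [hj]
    · rw [h j hj]
      exact bot_le
  · exact le_iSup f i

/-- `beq_chk_of_ne`, `nm_iSup` -/
theorem bmem_rnm (y : ℕ → B) (n : ℕ) : bmem (chk B (n : Ordinal.{0})) (rnm y) = y n := by
  unfold rnm
  rw [bmem_mk, nm_iSup n, beq_refl, inf_top_eq]
  intro j hj
  rw [beq_chk_of_ne, inf_bot_eq]
  intro h
  exact hj (by exact_mod_cast h.symm)

theorem E_rnm (U : UF B) (y : ℕ → B) (n : ℕ) : MU.E U (nn U n) (MU.mk U (rnm y)) ↔ y n ∈ U := by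
  unfold nn ck
  rw [MU.E_mk, bmem_rnm]

theorem E_snm (U : UF B) (x : ℕ → Bool) (n : ℕ) :
    MU.E U (nn U n) (MU.mk U (snm x)) ↔ x n = true := by
  unfold snm
  rw [E_rnm, cb_mem_iff]

theorem E_fnm (U : UF B) (s : Finset ℕ) (n : ℕ) :
    MU.E U (nn U n) (MU.mk U (fnm s)) ↔ n ∈ s := by
  unfold fnm
  rw [E_snm]
  exact decide_eq_true_iff

/-- like `PK.nameR_sub` -/
theorem isReal_rnm (U : UF B) (y : ℕ → B) : IsReal (MU.E U) (om U) (MU.mk U (rnm y)) := by
  intro m hm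
  obtain ⟨x, rfl⟩ := MU.mk_surj U m
  unfold om ck
  rw [MU.E_mk] at hm ⊢
  refine U.mem_of_le hm ?_
  unfold rnm
  rw [bmem_mk, bmem_chk]
  refine iSup_le fun k => inf_le_right.trans ?_
  exact le_iSup (fun β : Set.Iio Ordinal.omega0.{0} => beq x (chk B β))
    ⟨(k : Ordinal.{0}), Ordinal.natCast_lt_omega0 _⟩

/-- every real of the quotient is given by a function `y : ℕ → B`: let `x = MU.mk U x'` and
`y n = bmem (chk B n) x'`. In all quotients `z ∈ x' ↔ z ∈ rnm y` for the standard natural numbers `z`,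
so for all `z ∈ ω` (`ball_om`) -/
theorem exists_rnm (U : UF B) (x : MU U) (hx : IsReal (MU.E U) (om U) x) :
    ∃ y : ℕ → B, x = MU.mk U (rnm y) := by
  obtain ⟨x', rfl⟩ := MU.mk_surj U x
  refine ⟨fun n => bmem (chk B (n : Ordinal.{0})) x', ?_⟩
  set y : ℕ → B := fun n => bmem (chk B (n : Ordinal.{0})) x' with hy
  have hdef : FDef fun (M : Type 1) E w => (E (w 0) (w 1) ↔ E (w 0) (w 2)) :=
    (FDef.mem 0 1).iff (FDef.mem 0 2)
  have key := ball_om hdef (scons x' (fun _ => rnm y)) ⊤ (by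
    intro V _ n
    show MU.E V (nn V n) (MU.mk V x') ↔ MU.E V (nn V n) (MU.mk V (rnm y))
    rw [E_rnm]
    exact Iff.rfl) U U.top_mem
  refine MU.ext_E U _ _ fun z => ?_
  constructor
  · intro hz
    exact (key z (hx z hz)).1 hz
  · intro hz
    exact (key z (isReal_rnm U y z hz)).2 hz

/-- the elements of `fnm s` are standard -/
theorem mem_fnm (U : UF B) (s : Finset ℕ) (z : MU U) (hz : MU.E U z (MU.mk U (fnm s))) :
    ∃ k ∈ s, z = nn U k := by
  obtain ⟨z, rfl⟩ := MU.mk_surj U z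
  have h1 : bmem z (fnm s) ∈ U := hz
  have h2 : bmem z (fnm s) ≤ ⨆ k ∈ s, beq z (chk B (k : Ordinal.{0})) := by
    unfold fnm snm rnm
    rw [bmem_mk]
    refine iSup_le fun k => ?_
    by_cases hk : k ∈ s
    · exact inf_le_right.trans
        (le_iSup₂ (f := fun (k : ℕ) (_ : k ∈ s) => beq z (chk B (k : Ordinal.{0}))) k hk)
    · have h3 : (cb (fun i => decide (i ∈ s)) k : B) = ⊥ := by
        unfold cb
        rw [if_neg]
        rw [decide_eq_true_iff]
        exact hk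
      rw [h3, bot_inf_eq]
      exact bot_le
  obtain ⟨k, hk, hk2⟩ := U.exists_of_biSup_mem s (U.mem_of_le h1 h2)
  exact ⟨k, hk, (MU.mk_eq_iff U _ _).2 hk2⟩

/-- the subsets of a standard natural number `n` are the `fnm s`, `s ⊆ range n`: `mem_nn`,
`mem_fnm`, extensionality `MU.ext_E` -/
theorem exists_fnm (U : UF B) (n : ℕ) (x : MU U) (hx : ∀ z, MU.E U z x → MU.E U z (nn U n)) :
    ∃ s : Finset ℕ, s ⊆ Finset.range n ∧ x = MU.mk U (fnm s) := by
  classical
  refine ⟨(Finset.range n).filter fun k => MU.E U (nn U k) x, Finset.filter_subset _ _, ?_⟩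
  refine MU.ext_E U _ _ fun z => ?_
  constructor
  · intro hz
    obtain ⟨k, hk, rfl⟩ := mem_nn U n z (hx z hz)
    rw [E_fnm, Finset.mem_filter, Finset.mem_range]
    exact ⟨hk, hz⟩
  · intro hz
    obtain ⟨k, hk, rfl⟩ := mem_fnm U _ z hz
    exact (Finset.mem_filter.1 hk).2

theorem isIdx_fnm (U : UF B) (m : ℕ) (s : Finset ℕ) (hs : s ⊆ Finset.range m) :
    IsIdx (MU.E U) (om U) (nn U m) (MU.mk U (fnm s)) := by
  refine ⟨E_nn_om U m, fun z hz => ?_⟩
  obtain ⟨k, hk, rfl⟩ := mem_fnm U s z hz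
  exact (E_nn U k m).2 (Finset.mem_range.1 (hs hk))

theorem E_Xn (U : UF B) (x : ℕ → Bool) : MU.E U (MU.mk U (snm x)) (MU.mk U (Xn B)) := by
  rw [MU.E_mk]
  exact U.mem_of_le U.top_mem (vl_le_bmem (Xn B) x)

theorem E_Yn (U : UF B) (Yv : (ℕ → B) → B) (y : ℕ → B) (hy : Yv y ∈ U) :
    MU.E U (MU.mk U (rnm y)) (MU.mk U (Yn Yv)) := by
  rw [MU.E_mk]
  exact U.mem_of_le hy (vl_le_bmem (Yn Yv) y)

/-- `ball_name` -/
theorem ball_Xn {P : ∀ (M : Type 1), (M → M → Prop) → (ℕ → M) → Prop} (hP : FDef P)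
    (w : ℕ → BSet B)
    (h : ∀ (U : UF B) (x : ℕ → Bool),
      P (MU U) (MU.E U) (scons (MU.mk U (snm x)) (fun n => MU.mk U (w n))))
    (U : UF B) (m : MU U) (hm : MU.E U m (MU.mk U (Xn B))) :
    P (MU U) (MU.E U) (scons m (fun n => MU.mk U (w n))) :=
  ball_name (FDef2.ofDef hP) w (Xn B) (fun U i _ => h U i) U m hm

theorem ball_Yn {P : ∀ (M : Type 1), (M → M → Prop) → (ℕ → M) → Prop} (hP : FDef P)
    (w : ℕ → BSet B) (Yv : (ℕ → B) → B)
    (h : ∀ (U : UF B) (y : ℕ → B), Yv y ∈ U →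
      P (MU U) (MU.E U) (scons (MU.mk U (rnm y)) (fun n => MU.mk U (w n))))
    (U : UF B) (m : MU U) (hm : MU.E U m (MU.mk U (Yn Yv))) :
    P (MU U) (MU.E U) (scons m (fun n => MU.mk U (w n))) :=
  ball_name (FDef2.ofDef hP) w (Yn Yv) (fun U i hi => h U i hi) U m hm

/-- the elements of `X`, `Y` are reals: `ball_Xn`, `ball_Yn` with `w 0 = chk B ω` -/
theorem isReal_of_Xn (U : UF B) (m : MU U) (hm : MU.E U m (MU.mk U (Xn B))) :
    IsReal (MU.E U) (om U) m :=
  ball_Xn (def_isReal 1 0) (fun _ => chk B Ordinal.omega0) (fun V x => isReal_rnm V (cb x)) U m hm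

theorem isReal_of_Yn (U : UF B) (Yv : (ℕ → B) → B) (m : MU U)
    (hm : MU.E U m (MU.mk U (Yn Yv))) : IsReal (MU.E U) (om U) m :=
  ball_Yn (def_isReal 1 0) (fun _ => chk B Ordinal.omega0) Yv (fun V y _ => isReal_rnm V y) U m hm

end HM
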