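import Pool.Agent.H92.PK.Defs

/-!
# Definitions for the statement: the pseudointersection number and Hausdorff dimension zero
inside a model of set theory

`(M, E)` is a structure for the language of set theory. `IsZFC`, `App` (`⟨x, y⟩ ∈ f`), `InjOn`,
`IsOPair` are from `Pool.Agent.H26.BV.Defs`, `IsFin` from `Pool.Agent.H26.BV.Stmt`, `IsOmega` from
`Pool.Agent.H92.PK.Defs`. Reals are the subsets of `ω = w`, that is 0-1 sequences; two of them which
agree below `n` are at distance at most `2 ^ (-n)`.
-/

set_option autoImplicit false

universe v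

namespace HM

open BV

variable {M : Type v}

/-- `x` is a real, i.e. a subset of `ω = w` -/
def IsReal (E : M → M → Prop) (w x : M) : Prop := ∀ z, E z x → E z w

/-- `A` contains arbitrarily large natural numbers -/
def Unbdd (E : M → M → Prop) (w A : M) : Prop := ∀ m, E m w → ∃ n, E n w ∧ E m n ∧ E n A

/-- all but finitely many (all sufficiently large) elements of `A` are in `F` -/
def AlmostSub (E : M → M → Prop) (w A F : M) : Prop :=
  ∃ m, E m w ∧ ∀ n, E n w → E m n → E n A → E n F

/-- strong finite intersection property: the intersection of any finite subfamily of the family `F` of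
reals is unbounded -/
def SFIP (E : M → M → Prop) (w F : M) : Prop :=
  ∀ G, IsFin E G → (∀ A, E A G → E A F) → ∀ m, E m w →
    ∃ n, E n w ∧ E m n ∧ ∀ A, E A G → E n A

/-- `A` is a pseudointersection of the family `F` of reals -/
def IsPseudo (E : M → M → Prop) (w A F : M) : Prop :=
  IsReal E w A ∧ Unbdd E w A ∧ ∀ C, E C F → AlmostSub E w A C

/-- `|X| < 𝔭`: the set `X` is smaller than every family `F` of reals which has the strong finite
intersection property and no pseudointersection (`F` does not inject into `X`) -/
def BelowP (E : M → M → Prop) (w X : M) : Prop :=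
  ∀ F, (∀ A, E A F → IsReal E w A) → SFIP E w F → (¬ ∃ A, IsPseudo E w A F) →
    ∀ g, ¬ InjOn E g (fun x => E x F) (fun x => E x X)

/-- `x` and `y` have the same elements below the natural number `n` -/
def Agree (E : M → M → Prop) (n x y : M) : Prop := ∀ i, E i n → (E i x ↔ E i y)

/-- `K * (m + 1) ≤ n`, for natural numbers: some injective function maps all pairs `⟨i, j⟩` with
`i < K` and `j ≤ m` to elements of `n` -/
def MulLe (E : M → M → Prop) (K m n : M) : Prop :=
  ∃ g, (∀ i j p, E i K → (E j m ∨ j = m) → IsOPair E p i j → ∃ k, E k n ∧ App E g p k) ∧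
    (∀ p k k', App E g p k → App E g p k' → k = k') ∧
    (∀ p p' k, App E g p k → App E g p' k → p = p')

/-- `f` is a function -/
def IsFun (E : M → M → Prop) (f : M) : Prop := ∀ p a a', App E f p a → App E f p a' → a = a'

/-- `x` is in the box of the cover `f` with index `(m, s)`: `x` agrees with `f(m, s)` below some
`n ≥ K * (m + 1)`, so its distance to `f(m, s)` is at most `2 ^ (- K * (m + 1))` -/
def InBox (E : M → M → Prop) (w K f m s x : M) : Prop :=
  ∃ p a n, IsOPair E p m s ∧ App E f p a ∧ E n w ∧ MulLe E K m n ∧ Agree E n x a

/-- the index `(m, s)`: a natural number `m` and one of the `2 ^ m` subsets `s` of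
`m = {0, .., m - 1}` -/
def IsIdx (E : M → M → Prop) (w m s : M) : Prop := E m w ∧ ∀ z, E z s → E z m

/-- the set `Y` of reals has Hausdorff dimension zero: for every natural number `K` there is a
cover of `Y` by boxes, such that for every natural number `m` the cover has `2 ^ m` boxes of side
at most `2 ^ (- K * (m + 1))` -/
def DimZero1 (E : M → M → Prop) (w : M) (Y : M → Prop) : Prop :=
  ∀ K, E K w → ∃ f, IsFun E f ∧ ∀ y, Y y → ∃ m s, IsIdx E w m s ∧ InBox E w K f m s y

/-- the set `Z` of pairs of reals (points of the plane) has Hausdorff dimension zero: for every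
natural number `K` there is a cover of `Z` by boxes, such that for every natural number `m` the cover
has `2 ^ m` boxes of side at most `2 ^ (- K * (m + 1))` -/
def DimZero2 (E : M → M → Prop) (w : M) (Z : M → M → Prop) : Prop :=
  ∀ K, E K w → ∃ f g, IsFun E f ∧ IsFun E g ∧ ∀ x y, Z x y →
    ∃ m s, IsIdx E w m s ∧ InBox E w K f m s x ∧ InBox E w K g m s y

/-- in `(M, E)` the assertion of Q1 fails: `w` is `ω`, `X` and `Y` are sets of reals, `|X| < 𝔭`, the
set `Y` has Hausdorff dimension zero and `X × Y` does not have Hausdorff dimension zero -/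
structure IsCounter (E : M → M → Prop) (w X Y : M) : Prop where
  omega : PK.IsOmega E w
  realX : ∀ x, E x X → IsReal E w x
  realY : ∀ y, E y Y → IsReal E w y
  below : BelowP E w X
  zero : DimZero1 E w (fun y => E y Y)
  pos : ¬ DimZero2 E w (fun x y => E x X ∧ E y Y)

end HM
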