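import Pool.Agent.H71.HM.Mul
import Pool.Agent.H71.HD.NonCap

/-!
# DIM1: in the quotient the set `Y` has Hausdorff dimension zero
-/

set_option autoImplicit false

namespace HM

open BV PK HD

variable {B : Type} [CompleteBooleanAlgebra B]

/-- name of the cover: the function which maps `⟨m, s⟩` to `s`, for all natural numbers `m` and all finite
sets `s` of natural numbers -/
noncomputable def Cn (B : Type) [CompleteBooleanAlgebra B] : BSet B :=
  BSet.mk (ℕ × Finset ℕ)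
    (fun q => opr (opr (chk B (q.1 : Ordinal.{0})) (fnm q.2)) (fnm q.2)) fun _ => ⊤

theorem dim1_def : FDef2 fun (M : Type 1) (E : M → M → Prop) (_ : M → Prop) (w : ℕ → M) =>
    ∀ p a, IsOPair E (w 0) p a → ∃ m, IsOPair E p m a :=
  FDef2.ofDef (P := fun (_ : Type 1) E w => ∀ p a, IsOPair E (w 0) p a → ∃ m, IsOPair E p m a)
    (FDef.all (P := fun _ E w => ∀ a, IsOPair E (w 1) (w 0) a → ∃ m, IsOPair E (w 0) m a)
      (FDef.all (P := fun _ E w => IsOPair E (w 2) (w 1) (w 0) → ∃ m, IsOPair E (w 1) m (w 0))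
        ((def_isOPair 2 1 0).imp
          (FDef.ex (P := fun _ E w => IsOPair E (w 2) (w 0) (w 1)) (def_isOPair 2 0 1)))))

/-- every element `z` of `Cn` satisfies: if `z = ⟨p, a⟩` then `p = ⟨m, a⟩` for some `m`
(`ball_name`); `isOPair_inj` -/
theorem isFun_Cn (U : UF B) : IsFun (MU.E U) (MU.mk U (Cn B)) := by
  have key : ∀ z, MU.E U z (MU.mk U (Cn B)) →
      ∀ p a, IsOPair (MU.E U) z p a → ∃ m, IsOPair (MU.E U) p m a := by
    intro z hz
    refine ball_name dim1_def (fun _ => Cn B) (Cn B) ?_ U z hz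
    intro V i _ p a hpa
    have h1 := isOPair_opr V (opr (chk B (i.1 : Ordinal.{0})) (fnm i.2)) (fnm i.2)
    obtain ⟨h2, h3⟩ := isOPair_inj h1 hpa
    rw [← h2, ← h3]
    exact ⟨_, isOPair_opr V _ _⟩
  rintro p a a' ⟨z, hz, hzf⟩ ⟨z', hz', hzf'⟩
  obtain ⟨m, hm⟩ := key z hzf p a hz
  obtain ⟨m', hm'⟩ := key z' hzf' p a' hz'
  exact (isOPair_inj hm hm').2

theorem app_Cn (U : UF B) (m : ℕ) (s : Finset ℕ) :
    App (MU.E U) (MU.mk U (Cn B)) (MU.mk U (opr (chk B (m : Ordinal.{0})) (fnm s)))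
      (MU.mk U (fnm s)) := by
  refine ⟨MU.mk U (opr (opr (chk B (m : Ordinal.{0})) (fnm s)) (fnm s)), isOPair_opr U _ _, ?_⟩
  rw [MU.E_mk]
  exact U.mem_of_le U.top_mem (vl_le_bmem (Cn B) ((m, s) : ℕ × Finset ℕ))

/-- Let `K` be standard, `K ≤ k`, and let `U` be an ultrafilter such that the Boolean value of `y` is
zero on the window `[lw k, lw (k + 1))` is in `U`. Put `m = lw k`, `s = {i < m | y i ∈ U}`,
`n = lw (k + 1) ≥ K * (m + 1)` (`lw_window`). Then `y` agrees with `s` below `n`. -/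
theorem inBox_of_window (U : UF B) (K k : ℕ) (hk : K ≤ k) (y : ℕ → B)
    (hy : (⨅ i ∈ Finset.Ico (lw k) (lw (k + 1)), (y i)ᶜ) ∈ U) :
    ∃ m s, IsIdx (MU.E U) (om U) m s ∧
      InBox (MU.E U) (om U) (nn U K) (MU.mk U (Cn B)) m s (MU.mk U (rnm y)) := by
  classical
  rw [biInf_mem_iff] at hy
  let s : Finset ℕ := (Finset.range (lw k)).filter fun i => y i ∈ U
  refine ⟨nn U (lw k), MU.mk U (fnm s), isIdx_fnm U (lw k) s (Finset.filter_subset _ _), ?_⟩
  refine ⟨MU.mk U (opr (chk B ((lw k : ℕ) : Ordinal.{0})) (fnm s)), MU.mk U (fnm s),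
    nn U (lw (k + 1)), isOPair_opr U _ _, app_Cn U _ _, E_nn_om U _,
    mulLe_nn U (lw_window hk), ?_⟩
  intro i hi
  obtain ⟨j, hj, rfl⟩ := mem_nn U _ i hi
  rw [E_rnm, E_fnm]
  show y j ∈ U ↔ j ∈ (Finset.range (lw k)).filter fun i => y i ∈ U
  rw [Finset.mem_filter, Finset.mem_range]
  constructor
  · intro h
    refine ⟨?_, h⟩
    by_contra hlt
    have h1 := hy j (Finset.mem_Ico.2 ⟨not_lt.1 hlt, hj⟩)
    rw [UF.compl_mem_iff] at h1
    exact h1 h
  · exact fun h => h.2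

/-- for standard `K`: by `ball_Yn` it is enough to consider `rnm y` with `bY y ∈ U`. Let `b` be the
Boolean value (`exists_val`, `def_pt1`) of the statement in `inBox_of_window`; by
`UF.le_of_forall` the Boolean values of `y` is zero on the window `k` are `≤ b` for `k ≥ K`, so
`bY y ≤ b` -/
theorem cov1_nn (U : UF B) (K : ℕ) : ∃ f, IsFun (MU.E U) f ∧
    ∀ y, MU.E U y (MU.mk U (Yn (bY (B := B)))) →
      ∃ m s, IsIdx (MU.E U) (om U) m s ∧ InBox (MU.E U) (om U) (nn U K) f m s y := by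
  refine ⟨MU.mk U (Cn B), isFun_Cn U, ?_⟩
  intro y hy
  let w : ℕ → BSet B := fun n =>
    if n = 0 then chk B Ordinal.omega0 else if n = 1 then chk B (K : Ordinal.{0}) else Cn B
  refine ball_Yn (def_pt1 1 2 3 0) w (bY (B := B)) ?_ U y hy
  intro V y hyV
  obtain ⟨b, hb⟩ := exists_val (B := B) (def_pt1 1 2 3 0) (scons (rnm y) w)
  have h1 : bY y ≤ b := by
    unfold bY
    refine (iInf_le _ K).trans (iSup₂_le fun k hk => ?_)
    refine UF.le_of_forall fun V' hV' => (hb V').2 ?_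
    exact inBox_of_window V' K k hk y hV'
  exact (hb V).1 (V.mem_of_le hyV h1)

/-- by `ball_om` and `def_cov1` -/
theorem dimZero1_Yn (U : UF B) :
    DimZero1 (MU.E U) (om U) (fun y => MU.E U y (MU.mk U (Yn (bY (B := B))))) := by
  intro K hK
  let w : ℕ → BSet B := fun n => if n = 0 then chk B Ordinal.omega0 else Yn (bY (B := B))
  exact ball_om (def_cov1 1 0 2) w ⊤ (fun V _ n => cov1_nn V n) U U.top_mem K hK

end HM
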