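import Pool.Agent.H71.HM.Mul
import Pool.Agent.H71.HD.NonCap

/-!
# DIM2: in the quotient `X × Y` does not have Hausdorff dimension zero
-/

set_option autoImplicit false

namespace HM

open BV PK HD

variable {B : Type} [CompleteBooleanAlgebra B]

/-- the Boolean values of `i` is an element of `F(⟨m, s⟩)`: `exists_val` with the property
`∃ x, App E (w 0) (w 1) x ∧ E (w 2) x` -/
theorem exists_mat (F : BSet B) : ∃ a : ℕ → Finset ℕ → ℕ → B, ∀ (U : UF B) (m : ℕ)
    (s : Finset ℕ) (i : ℕ), a m s i ∈ U ↔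
      ∃ x, App (MU.E U) (MU.mk U F) (MU.mk U (opr (chk B (m : Ordinal.{0})) (fnm s))) x ∧
        MU.E U (nn U i) x := by
  have hP : FDef fun (M : Type 1) E w => ∃ x, App E (w 0) (w 1) x ∧ E (w 2) x :=
    FDef.ex (P := fun _ E w => App E (w 1) (w 2) (w 0) ∧ E (w 3) (w 0))
      ((def_app 1 2 0).and (FDef.mem 3 0))
  have h : ∀ (m : ℕ) (s : Finset ℕ) (i : ℕ), ∃ b : B, ∀ U : UF B, b ∈ U ↔
      ∃ x, App (MU.E U) (MU.mk U F) (MU.mk U (opr (chk B (m : Ordinal.{0})) (fnm s))) x ∧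
        MU.E U (nn U i) x := by
    intro m s i
    exact exists_val hP (scons F (scons (opr (chk B (m : Ordinal.{0})) (fnm s))
      (fun _ => chk B (i : Ordinal.{0}))))
  choose a ha using h
  exact ⟨a, fun U m s i => ha m s i U⟩

/-- Let `InBox` hold with the standard index `(m, s)`: there are `p`, `a`, `n`; `p` is the pair `⟨m, s⟩`
(`isOPair_unique`), `App F p a`, `MulLe 4 m n`, so `nn U i ∈ n` for `i < 4 * (m + 1)`
(`of_mulLe`), so `nn U i ∈ y ↔ nn U i ∈ a`, and this is equivalent to `a m s i ∈ U` as `F` is a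
function. -/
theorem agB_of_inBox (U : UF B) (F : BSet B) (hF : IsFun (MU.E U) (MU.mk U F))
    (a : ℕ → Finset ℕ → ℕ → B)
    (ha : ∀ (m : ℕ) (s : Finset ℕ) (i : ℕ), a m s i ∈ U ↔
      ∃ x, App (MU.E U) (MU.mk U F) (MU.mk U (opr (chk B (m : Ordinal.{0})) (fnm s))) x ∧
        MU.E U (nn U i) x) (m : ℕ) (s : Finset ℕ) (y : ℕ → B)
    (h : InBox (MU.E U) (om U) (nn U 4) (MU.mk U F) (nn U m) (MU.mk U (fnm s))
      (MU.mk U (rnm y))) : agB (4 * (m + 1)) y (a m s) ∈ U := by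
  obtain ⟨p, a', n, hp, hFp, hn, hmul, hag⟩ := h
  rw [agB_mem_iff]
  intro i hi
  have h1 := of_mulLe U hn hmul i hi
  have h2 := hag (nn U i) h1
  rw [E_rnm] at h2
  have hp' : p = MU.mk U (opr (chk B (m : Ordinal.{0})) (fnm s)) :=
    isOPair_unique (MU.ext_E U) hp (isOPair_opr U (chk B (m : Ordinal.{0})) (fnm s))
  rw [hp'] at hFp
  rw [h2, ha m s i]
  constructor
  · intro h3
    exact ⟨a', hFp, h3⟩
  · rintro ⟨x, hx, hix⟩
    rw [hF _ _ _ hFp hx]
    exact hix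

/-- Suppose `DimZero2`, take `K = nn U 4`: there are `f`, `g`, with names `F`, `G`. Let `b ∈ U` be the
Boolean value of the statement about `F`, `G` (`def_cov2`, `exists_val`), `a`, `a'` the matrices of
`exists_mat`, and `x`, `y` as in `NonCap`. For all ultrafilters `V ∋ b` the pair `(snm x, rnm y)` is
in a box in the quotient by `V`: `∃ m ∈ ω, ∃ s ..` (`def_pt2`). By `bex_om`, with `c m = ⊥`, it is
enough to find a contradiction from the statement for a standard `m`; then `s` is a subset of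
`m`, so `s = fnm t` with `t ⊆ range m` (`exists_fnm`), and by `agB_of_inBox` the element `⊥` of
`NonCap` is in the ultrafilter. -/
theorem not_dimZero2 (hB : NonCap B) (U : UF B) :
    ¬ DimZero2 (MU.E U) (om U) (fun x y => MU.E U x (MU.mk U (Xn B)) ∧
      MU.E U y (MU.mk U (Yn (bY (B := B))))) := by
  intro hD
  obtain ⟨f, g, hf, hg, hcov⟩ := hD (nn U 4) (E_nn_om U 4)
  obtain ⟨F, rfl⟩ := MU.mk_surj U f
  obtain ⟨G, rfl⟩ := MU.mk_surj U g
  obtain ⟨a, ha⟩ := exists_mat (B := B) F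
  obtain ⟨a', ha'⟩ := exists_mat (B := B) G
  obtain ⟨x, y, hy, hxy⟩ := hB a a'
  obtain ⟨m, s, hidx, hx1, hy1⟩ := hcov (MU.mk U (snm x)) (MU.mk U (rnm y))
    ⟨E_Xn U x, E_Yn U _ y (by rw [hy]; exact U.top_mem)⟩
  have hidx' : IsIdx (MU.E U) (om U) m s := hidx
  have hP : FDef fun (M : Type 1) E w => (IsFun E (w 3) ∧ IsFun E (w 4)) ∧
      ∃ s, IsIdx E (w 1) (w 0) s ∧ InBox E (w 1) (w 2) (w 3) (w 0) s (w 5) ∧
        InBox E (w 1) (w 2) (w 4) (w 0) s (w 6) :=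
    ((def_isFun 3).and (def_isFun 4)).and (def_pt2 1 2 3 4 5 6 0)
  have key := bex_om hP (scons (chk B Ordinal.omega0) (scons (chk B ((4 : ℕ) : Ordinal.{0}))
    (scons F (scons G (scons (snm x) (fun _ => rnm y)))))) (fun _ => (⊥ : B)) (fun V n hV => ?_) U
    ⟨m, hidx'.1, ⟨hf, hg⟩, s, hidx, hx1, hy1⟩
  · rw [iSup_const] at key
    exact U.bot_notMem key
  · obtain ⟨⟨hf1, hg1⟩, s1, hidx1, hx2, hy2⟩ := hV
    obtain ⟨t, ht, rfl⟩ := exists_fnm V n s1 hidx1.2
    have h1 : agB (4 * (n + 1)) (cb x) (a n t) ∈ V :=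
      agB_of_inBox V F hf1 a (ha V) n t (cb x) hx2
    have h2 : agB (4 * (n + 1)) y (a' n t) ∈ V :=
      agB_of_inBox V G hg1 a' (ha' V) n t y hy2
    have h3 := V.inf_mem h1 h2
    rw [hxy n t ht] at h3
    exact h3

end HM
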