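import Pool.Agent.H71.HM.PsdB
import Pool.Agent.H71.FS.Alg

/-!
# PSD: in the quotient the set `X` of the ground model reals is smaller than `𝔭`
-/

set_option autoImplicit false

namespace HM

open BV PK HD

variable {B : Type} [CompleteBooleanAlgebra B]

/-- assembly -/
theorem belowP_Xn (hB : FS.PS (ℕ → Bool) B) (U : UF B) :
    BelowP (MU.E U) (om U) (MU.mk U (Xn B)) := by
  intro F _ hs hn g hg
  obtain ⟨F, rfl⟩ := MU.mk_surj U F
  obtain ⟨g, rfl⟩ := MU.mk_surj U g
  obtain ⟨f, hf⟩ := exists_fam F g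
  obtain ⟨A, hA1, hA2⟩ := hB f
  exact hn ⟨MU.mk U (rnm A), isReal_rnm U A,
    unbdd_rnm U A (U.mem_of_le (le_of_sfip F g f hf U hs hg) hA1),
    fun C hC => almostSub_rnm F g f hf A hA2 U hg C hC⟩

end HM
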