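import Pool.Agent.H71.HM.Dim1
import Pool.Agent.H71.HM.Dim2
import Pool.Agent.H71.HM.Psd

/-!
# MAIN: the consistency theorem
-/

set_option autoImplicit false

namespace HM

open BV PK HD Cardinal

/-- there is a model of ZFC in which some set `X` of reals of size less than `𝔭` and some set `Y` of
reals of Hausdorff dimension zero have a product which is not of Hausdorff dimension zero -/
theorem exists_counter : ∃ (M : Type 1) (E : M → M → Prop), IsZFC E ∧ ∃ w X Y, IsCounter E w X Y := by
  obtain ⟨B, iB, hn, hSC, hPS⟩ := FS.exists_alg (ℕ → Bool) (by simp)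
  obtain ⟨U, -⟩ := UF.exists_mem (B := B) (a := ⊤) top_ne_bot
  exact ⟨MU U, MU.E U, isZFC U, om U, MU.mk U (Xn B), MU.mk U (Yn (bY (B := B))),
    isOmega_om U, isReal_of_Xn U, isReal_of_Yn U bY, belowP_Xn hPS U, dimZero1_Yn U,
    not_dimZero2 (nonCap_of_SC hSC) U⟩

end HM
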