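import Pool.Agent.H71.HM.Nm

/-!
# MUL: the relation `K * (m + 1) ≤ n` for standard numbers
-/

set_option autoImplicit false

namespace HM

open BV PK HD

variable {B : Type} [CompleteBooleanAlgebra B]

/-- finite sets in the quotient -/
theorem mul_list (U : UF B) (l : List (MU U)) : ∃ s : MU U, ∀ z, MU.E U z s ↔ z ∈ l := by
  induction l with
  | nil =>
    obtain ⟨w, ⟨e, -, he⟩, -⟩ := (isZFC U).infinity
    exact ⟨e, fun z => ⟨fun h => absurd h (he z), fun h => absurd h List.not_mem_nil⟩⟩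
  | cons a l ih =>
    obtain ⟨s, hs⟩ := ih
    obtain ⟨p, hp⟩ := (isZFC U).pairing a a
    obtain ⟨q, hq⟩ := (isZFC U).pairing s p
    obtain ⟨t, ht⟩ := (isZFC U).union q
    refine ⟨t, fun z => ?_⟩
    rw [ht, List.mem_cons]
    constructor
    · rintro ⟨c, hc, hz⟩
      rcases (hq c).1 hc with rfl | rfl
      · exact Or.inr ((hs z).1 hz)
      · rcases (hp z).1 hz with h1 | h1 <;> exact Or.inl h1
    · rintro (rfl | hz)
      · exact ⟨p, (hq p).2 (Or.inr rfl), (hp _).2 (Or.inl rfl)⟩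
      · exact ⟨s, (hq s).2 (Or.inl rfl), (hs z).2 hz⟩

theorem mul_pair_exists (U : UF B) (x y : MU U) : ∃ p, IsOPair (MU.E U) p x y :=
  exists_isOPair (isZFC U).pairing x y

theorem mul_div {a b a' b' m : ℕ} (hb : b < m + 1) (hb' : b' < m + 1)
    (h : a * (m + 1) + b = a' * (m + 1) + b') : a = a' ∧ b = b' := by
  have h1 : (a * (m + 1) + b) / (m + 1) = a := by
    rw [mul_comm, Nat.mul_add_div (Nat.succ_pos m), Nat.div_eq_of_lt hb, add_zero]
  have h2 : (a' * (m + 1) + b') / (m + 1) = a' := by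
    rw [mul_comm, Nat.mul_add_div (Nat.succ_pos m), Nat.div_eq_of_lt hb', add_zero]
  have h3 : a = a' := by rw [← h1, ← h2, h]
  subst h3
  exact ⟨rfl, Nat.add_left_cancel h⟩

/-- let `g` be the value of the name with the members
`opr (opr i j) (i * (m + 1) + j)`, `i < K`, `j ≤ m`, all with Boolean value `⊤`; all elements of `g`
are standard (finite supremum, or `ball_name`) -/
theorem mulLe_nn (U : UF B) {K m n : ℕ} (h : K * (m + 1) ≤ n) :
    MulLe (MU.E U) (nn U K) (nn U m) (nn U n) := by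
  classical
  choose op hop using fun x y => mul_pair_exists U x y
  let el : ℕ × ℕ → MU U := fun ij => op (op (nn U ij.1) (nn U ij.2)) (nn U (ij.1 * (m + 1) + ij.2))
  let S : Finset (ℕ × ℕ) := Finset.range K ×ˢ Finset.range (m + 1)
  obtain ⟨g, hg⟩ := mul_list U (S.toList.map el)
  have hg' : ∀ z, MU.E U z g ↔ ∃ i j, i < K ∧ j < m + 1 ∧ z = el (i, j) := by
    intro z
    rw [hg, List.mem_map]
    constructor
    · rintro ⟨⟨i, j⟩, hij, rfl⟩
      rw [Finset.mem_toList, Finset.mem_product, Finset.mem_range, Finset.mem_range] at hij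
      exact ⟨i, j, hij.1, hij.2, rfl⟩
    · rintro ⟨i, j, hi, hj, rfl⟩
      refine ⟨(i, j), ?_, rfl⟩
      rw [Finset.mem_toList, Finset.mem_product, Finset.mem_range, Finset.mem_range]
      exact ⟨hi, hj⟩
  have happ : ∀ p k, App (MU.E U) g p k ↔ ∃ i j, i < K ∧ j < m + 1 ∧
      p = op (nn U i) (nn U j) ∧ k = nn U (i * (m + 1) + j) := by
    intro p k
    constructor
    · rintro ⟨q, hq, hqg⟩
      obtain ⟨i, j, hi, hj, rfl⟩ := (hg' q).1 hqg
      obtain ⟨h1, h2⟩ := isOPair_inj hq (hop _ _)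
      exact ⟨i, j, hi, hj, h1, h2⟩
    · rintro ⟨i, j, hi, hj, rfl, rfl⟩
      exact ⟨el (i, j), hop _ _, (hg' _).2 ⟨i, j, hi, hj, rfl⟩⟩
  have hopinj : ∀ {i j i' j' : ℕ}, op (nn U i) (nn U j) = op (nn U i') (nn U j') →
      i = i' ∧ j = j' := by
    intro i j i' j' he
    have h1 := hop (nn U i) (nn U j)
    rw [he] at h1
    obtain ⟨h2, h3⟩ := isOPair_inj h1 (hop (nn U i') (nn U j'))
    exact ⟨nn_inj U h2, nn_inj U h3⟩
  refine ⟨g, ?_, ?_, ?_⟩
  · intro i j p hi hj hp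
    obtain ⟨a, ha, rfl⟩ := mem_nn U K i hi
    have hb : ∃ b, b < m + 1 ∧ j = nn U b := by
      rcases hj with hj | rfl
      · obtain ⟨b, hb, rfl⟩ := mem_nn U m j hj
        exact ⟨b, by omega, rfl⟩
      · exact ⟨m, by omega, rfl⟩
    obtain ⟨b, hb, rfl⟩ := hb
    refine ⟨nn U (a * (m + 1) + b), ?_, ?_⟩
    · rw [E_nn]
      have h1 : (a + 1) * (m + 1) ≤ K * (m + 1) := Nat.mul_le_mul_right _ ha
      rw [add_mul, one_mul] at h1
      omega
    · rw [happ]
      exact ⟨a, b, ha, hb, isOPair_unique (MU.ext_E U) hp (hop _ _), rfl⟩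
  · intro p k k' h1 h2
    obtain ⟨i, j, hi, hj, rfl, rfl⟩ := (happ _ _).1 h1
    obtain ⟨i', j', hi', hj', h3, rfl⟩ := (happ _ _).1 h2
    obtain ⟨rfl, rfl⟩ := hopinj h3
    rfl
  · intro p p' k h1 h2
    obtain ⟨i, j, hi, hj, rfl, rfl⟩ := (happ _ _).1 h1
    obtain ⟨i', j', hi', hj', rfl, h3⟩ := (happ _ _).1 h2
    obtain ⟨rfl, rfl⟩ := mul_div hj hj' (nn_inj U h3)
    rfl

/-- Conversely. If some `i < K * (m + 1)` is not in `n`, then (`MU.trichotomy`, `n` is an ordinal as an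
element of `ω`) `n` is in or equal to `nn U i`, so `n = nn U n'` with `n' < K * (m + 1)`; the
function `g` gives an injection of `Fin K × Fin (m + 1)` into `Fin n'` (`mem_nn`), a contradiction -/
theorem of_mulLe (U : UF B) {K m : ℕ} {n : MU U} (hn : MU.E U n (om U))
    (h : MulLe (MU.E U) (nn U K) (nn U m) n) : ∀ i < K * (m + 1), MU.E U (nn U i) n := by
  classical
  intro i hi
  by_contra hcon
  have hord : IsOrd (MU.E U) n := isOrd_of_mem (isOrd_ck U _) hn
  have hn' : ∃ n' : ℕ, n' < K * (m + 1) ∧ n = nn U n' := by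
    rcases MU.trichotomy U (nn U i) n (isOrd_ck U _) hord with h1 | h1 | h1
    · exact absurd h1 hcon
    · exact ⟨i, hi, h1.symm⟩
    · obtain ⟨k, hk, rfl⟩ := mem_nn U i n h1
      exact ⟨k, hk.trans hi, rfl⟩
  obtain ⟨n', hn1, rfl⟩ := hn'
  obtain ⟨g, hg1, hg2, hg3⟩ := h
  have hch : ∀ q : Fin K × Fin (m + 1), ∃ c : Fin n', ∃ p, IsOPair (MU.E U) p (nn U q.1) (nn U q.2) ∧
      App (MU.E U) g p (nn U c) := by
    rintro ⟨a, b⟩
    obtain ⟨p, hp⟩ := mul_pair_exists U (nn U a) (nn U b)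
    have h1 : MU.E U (nn U a) (nn U K) := (E_nn U _ _).2 a.2
    have h2 : MU.E U (nn U b) (nn U m) ∨ nn U b = nn U m := by
      rcases Nat.lt_succ_iff_lt_or_eq.1 b.2 with h3 | h3
      · exact Or.inl ((E_nn U _ _).2 h3)
      · exact Or.inr (by rw [h3])
    obtain ⟨k, hk, hgk⟩ := hg1 _ _ p h1 h2 hp
    obtain ⟨c, hc, rfl⟩ := mem_nn U n' k hk
    exact ⟨⟨c, hc⟩, p, hp, hgk⟩
  choose c p hp hc using hch
  have hinj : Function.Injective c := by
    intro q q' hqq
    have h1 := hc q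
    rw [hqq] at h1
    have h2 := hg3 _ _ _ h1 (hc q')
    have h3 := hp q
    rw [h2] at h3
    obtain ⟨h4, h5⟩ := isOPair_inj h3 (hp q')
    exact Prod.ext (Fin.ext (nn_inj U h4)) (Fin.ext (nn_inj U h5))
  have hcard := Fintype.card_le_of_injective c hinj
  rw [Fintype.card_prod, Fintype.card_fin, Fintype.card_fin, Fintype.card_fin] at hcard
  omega

end HM
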