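import Pool.Agent.H71.HM.Nm

/-!
# PSDA: families indexed by the ground model reals
-/

set_option autoImplicit false

namespace HM

open BV PK HD

variable {B : Type} [CompleteBooleanAlgebra B]

/-- name of a finite set of ground model reals -/
noncomputable def Hn (H : Finset (ℕ → Bool)) : BSet B :=
  BSet.mk {x // x ∈ H} (fun x => snm x.1) fun _ => ⊤

/-- the elements of `Hn H` are the `snm x`, `x ∈ H` (finite suprema) -/
theorem mem_Hn (U : UF B) (H : Finset (ℕ → Bool)) (z : MU U) :
    MU.E U z (MU.mk U (Hn H)) ↔ ∃ x ∈ H, z = MU.mk U (snm x) := by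
  obtain ⟨z, rfl⟩ := MU.mk_surj U z
  have h1 : bmem z (Hn H) = ⨆ x ∈ H, beq z (snm x) := by
    rw [bmem_eq]
    apply le_antisymm
    · refine iSup_le fun i => ?_
      refine le_trans inf_le_right ?_
      exact le_iSup₂_of_le i.1 i.2 le_rfl
    · refine iSup₂_le fun x hx => ?_
      refine le_iSup_of_le (⟨x, hx⟩ : {x // x ∈ H}) ?_
      exact le_inf le_top le_rfl
  rw [MU.E_mk, h1]
  constructor
  · intro h
    obtain ⟨x, hx, h2⟩ := U.exists_of_biSup_mem H h
    exact ⟨x, hx, (MU.mk_eq_iff U _ _).2 h2⟩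
  · rintro ⟨x, hx, h2⟩
    exact U.mem_of_le ((MU.mk_eq_iff U _ _).1 h2) (le_iSup₂_of_le x hx le_rfl)

/-- a set with one more element -/
theorem psda_insert (U : UF B) (G A : MU U) : ∃ G', ∀ z, MU.E U z G' ↔ MU.E U z G ∨ z = A := by
  obtain ⟨p, hp⟩ := (isZFC U).pairing A A
  obtain ⟨q, hq⟩ := (isZFC U).pairing G p
  obtain ⟨s, hs⟩ := (isZFC U).union q
  refine ⟨s, fun z => ?_⟩
  rw [hs]
  constructor
  · rintro ⟨y, hy, hz⟩
    rcases (hq y).1 hy with rfl | rfl
    · exact Or.inl hz
    · rcases (hp z).1 hz with h | h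
      · exact Or.inr h
      · exact Or.inr h
  · rintro (h | h)
    · exact ⟨G, (hq G).2 (Or.inl rfl), h⟩
    · exact ⟨p, (hq p).2 (Or.inr rfl), (hp z).2 (Or.inl h)⟩

/-- if `g` is injective from `F` to `X` then the set of the elements `A` of `F` with `g(A)` in
`{snm x : x ∈ H}` is finite: induction on `H`; the set exists by separation (`isZFC`, or `ax_sep`), for
each `x ∈ H` there is at most one such `A` with `g(A) = snm x` -/
theorem exists_fin (U : UF B) (F g X : MU U)
    (hg : InjOn (MU.E U) g (fun x => MU.E U x F) (fun x => MU.E U x X))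
    (H : Finset (ℕ → Bool)) : ∃ G : MU U, IsFin (MU.E U) G ∧
      ∀ A, MU.E U A G ↔ MU.E U A F ∧ ∃ x ∈ H, App (MU.E U) g A (MU.mk U (snm x)) := by
  classical
  induction H using Finset.induction_on with
  | empty =>
    obtain ⟨w, ⟨e, _, he⟩, _⟩ := (isZFC U).infinity
    refine ⟨e, fun F' h1 _ => h1 e he, fun A => ?_⟩
    constructor
    · intro h
      exact absurd h (he A)
    · rintro ⟨_, x, hx, _⟩
      exact absurd hx (Finset.notMem_empty x)
  | insert x H _ ih =>
    obtain ⟨G, hG1, hG2⟩ := ih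
    by_cases hA : ∃ A, MU.E U A F ∧ App (MU.E U) g A (MU.mk U (snm x))
    · obtain ⟨A, hAF, hA⟩ := hA
      obtain ⟨G', hG'⟩ := psda_insert U G A
      refine ⟨G', ?_, fun C => ?_⟩
      · intro F' h1 h2
        have h3 : MU.E U G F' := by
          refine hG1 F' h1 fun A0 a A0' h4 h5 h6 => ?_
          exact h2 A0 a A0' h4 ((hG' a).2 (Or.inl h5)) h6
        exact h2 G A G' h3 ((hG' A).2 (Or.inr rfl)) hG'
      · rw [hG', hG2]
        constructor
        · rintro (⟨h1, x', hx', h2⟩ | rfl)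
          · exact ⟨h1, x', Finset.mem_insert_of_mem hx', h2⟩
          · exact ⟨hAF, x, Finset.mem_insert_self x H, hA⟩
        · rintro ⟨h1, x', hx', h2⟩
          rcases Finset.mem_insert.1 hx' with h3 | h3
          · right
            rw [h3] at h2
            exact hg.2.2 C A _ h1 hAF h2 hA
          · exact Or.inl ⟨h1, x', h3, h2⟩
    · refine ⟨G, hG1, fun C => ?_⟩
      rw [hG2]
      constructor
      · rintro ⟨h1, x', hx', h2⟩
        exact ⟨h1, x', Finset.mem_insert_of_mem hx', h2⟩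
      · rintro ⟨h1, x', hx', h2⟩
        rcases Finset.mem_insert.1 hx' with h3 | h3
        · rw [h3] at h2
          exact absurd ⟨C, h1, h2⟩ hA
        · exact ⟨h1, x', h3, h2⟩

/-- the Boolean values of `n` is in all elements `A` of `F` with `g(A) = x` -/
theorem exists_fam (F g : BSet B) : ∃ f : (ℕ → Bool) → ℕ → B, ∀ (U : UF B) (x : ℕ → Bool)
    (n : ℕ), f x n ∈ U ↔ ∀ A, MU.E U A (MU.mk U F) →
      App (MU.E U) (MU.mk U g) A (MU.mk U (snm x)) → MU.E U (nn U n) A := by
  have hP : FDef fun (M : Type 1) E w =>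
      ∀ A, E A (w 0) → App E (w 1) A (w 2) → E (w 3) A :=
    FDef.all (P := fun _ E w => E (w 0) (w 1) → App E (w 2) (w 0) (w 3) → E (w 4) (w 0))
      ((FDef.mem 0 1).imp ((def_app 2 0 3).imp (FDef.mem 4 0)))
  have h := fun (x : ℕ → Bool) (n : ℕ) => exists_val (B := B) hP
    (scons F (scons g (scons (snm x) fun _ => chk B (n : Ordinal.{0}))))
  choose f hf using h
  exact ⟨f, fun U x n => hf x n U⟩

end HM
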