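import Pool.Agent.H71.HM.PsdA

/-!
# PSDB: strong finite intersection property and pseudointersections in the quotients
-/

set_option autoImplicit false

namespace HM

open BV PK HD

variable {B : Type} [CompleteBooleanAlgebra B]

theorem psdb_fin_iInf {α : Type} (V : UF B) (H : Finset α) (f : α → B) (h : ∀ x ∈ H, f x ∈ V) :
    (⨅ x ∈ H, f x) ∈ V := by
  classical
  induction H using Finset.induction_on with
  | empty => simpa using V.top_mem
  | insert a s ha ih =>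
    rw [Finset.iInf_insert]
    exact V.inf_mem (h a (Finset.mem_insert_self a s))
      (ih fun x hx => h x (Finset.mem_insert_of_mem hx))

/-- assignment of four names -/
def psdb_w (a b c d : BSet B) : ℕ → BSet B
  | 0 => a
  | 1 => b
  | 2 => c
  | _ => d

/-- Let `b` be the Boolean value of `F` has the strong finite intersection property and `g` is injective
from `F` to `X`. Then `b` is at most the left side of `PS` for the `f` of `exists_fam`. Let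
`H`, `m` be given and `U` an ultrafilter with `b ∈ U`; by `exists_fin` and `SFIP` there is
`n ∈ ω` with `m ∈ n` and `n ∈ A` for all `A ∈ F` with `g(A) = snm x`, `x ∈ H`. Apply `bex_om` to the
property `m ∈ n`, and for all `x` in `Hn H` and all `A ∈ F` with `g(A) = x`, `n ∈ A` and to
`c n = ⨆ (_ : m < n), ⨅ x ∈ H, f x n`. -/
theorem le_of_sfip (F g : BSet B) (f : (ℕ → Bool) → ℕ → B)
    (hf : ∀ (U : UF B) (x : ℕ → Bool) (n : ℕ), f x n ∈ U ↔ ∀ A, MU.E U A (MU.mk U F) →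
      App (MU.E U) (MU.mk U g) A (MU.mk U (snm x)) → MU.E U (nn U n) A)
    (U : UF B) (h1 : SFIP (MU.E U) (om U) (MU.mk U F))
    (h2 : InjOn (MU.E U) (MU.mk U g) (fun x => MU.E U x (MU.mk U F))
      (fun x => MU.E U x (MU.mk U (Xn B)))) :
    (⨅ H : Finset (ℕ → Bool), ⨅ m : ℕ, ⨆ n, ⨆ (_ : m < n), ⨅ x ∈ H, f x n) ∈ U := by
  have hd1 : FDef fun (M : Type 1) E w => SFIP E (w 0) (w 1) ∧
      InjOn E (w 2) (fun x => E x (w 1)) (fun x => E x (w 3)) :=
    (def_sfip 0 1).and (def_injOn 2 1 3)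
  obtain ⟨b, hb⟩ := exists_val hd1 (psdb_w (chk B Ordinal.omega0) F g (Xn B))
  have hbU : b ∈ U := (hb U).2 ⟨h1, h2⟩
  refine U.mem_of_le hbU (le_iInf fun H => le_iInf fun m => UF.le_of_forall fun V hV => ?_)
  obtain ⟨h3, h4⟩ : SFIP (MU.E V) (om V) (MU.mk V F) ∧
      InjOn (MU.E V) (MU.mk V g) (fun x => MU.E V x (MU.mk V F))
        (fun x => MU.E V x (MU.mk V (Xn B))) := (hb V).1 hV
  obtain ⟨Gf, hG1, hG2⟩ := exists_fin V (MU.mk V F) (MU.mk V g) (MU.mk V (Xn B)) h4 H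
  obtain ⟨n, hn1, hn2, hn3⟩ := h3 Gf hG1 (fun A hA => ((hG2 A).1 hA).1) (nn V m) (E_nn_om V m)
  have hd2 : FDef fun (M : Type 1) E w => E (w 1) (w 0) ∧
      ∀ A, E A (w 2) → (∃ x, E x (w 3) ∧ App E (w 4) A x) → E (w 0) A :=
    (FDef.mem 1 0).and
      (FDef.all (P := fun _ E w => E (w 0) (w 3) → (∃ x, E x (w 4) ∧ App E (w 5) (w 0) x) →
          E (w 1) (w 0))
        ((FDef.mem 0 3).imp ((FDef.ex (P := fun _ E w => E (w 0) (w 5) ∧ App E (w 6) (w 1) (w 0))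
          ((FDef.mem 0 5).and (def_app 6 1 0))).imp (FDef.mem 1 0))))
  refine bex_om hd2 (psdb_w (chk B (m : Ordinal.{0})) F (Hn H) g)
    (fun n => ⨆ (_ : m < n), ⨅ x ∈ H, f x n) ?_ V ⟨n, hn1, hn2, fun A hA hx => ?_⟩
  · intro V' k hk
    have hk' : MU.E V' (nn V' m) (nn V' k) ∧ ∀ A, MU.E V' A (MU.mk V' F) →
        (∃ x, MU.E V' x (MU.mk V' (Hn H)) ∧ App (MU.E V') (MU.mk V' g) A x) →
        MU.E V' (nn V' k) A := hk
    have hmk : m < k := (E_nn V' m k).1 hk'.1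
    have e1 : (⨆ (_ : m < k), ⨅ x ∈ H, f x k) = ⨅ x ∈ H, f x k := iSup_pos hmk
    show (⨆ (_ : m < k), ⨅ x ∈ H, f x k) ∈ V'
    rw [e1]
    refine psdb_fin_iInf V' H (fun x => f x k) (fun x hx => (hf V' x k).2 fun A hA hA' => ?_)
    exact hk'.2 A hA ⟨MU.mk V' (snm x), (mem_Hn V' H _).2 ⟨x, hx, rfl⟩, hA'⟩
  · obtain ⟨x, hx1, hx2⟩ := hx
    obtain ⟨y, hy1, hy2⟩ := (mem_Hn V H x).1 hx1
    refine hn3 A ((hG2 A).2 ⟨hA, y, hy1, ?_⟩)
    rw [← hy2]
    exact hx2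

/-- if the Boolean value `⨅ m, ⨆ n > m, A n` is in `U` then `rnm A` is unbounded: let
`b` be this value, use `ball_om` (with `b`) for `m`, and `bex_om'` for `n` -/
theorem unbdd_rnm (U : UF B) (A : ℕ → B) (h : (⨅ m : ℕ, ⨆ n, ⨆ (_ : m < n), A n) ∈ U) :
    Unbdd (MU.E U) (om U) (MU.mk U (rnm A)) := by
  intro m hm
  have hd1 : FDef fun (M : Type 1) E w => ∃ n, E n (w 1) ∧ E (w 0) n ∧ E n (w 2) :=
    FDef.ex (P := fun _ E w => E (w 0) (w 2) ∧ E (w 1) (w 0) ∧ E (w 0) (w 3))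
      ((FDef.mem 0 2).and ((FDef.mem 1 0).and (FDef.mem 0 3)))
  refine ball_om hd1 (psdb_w (chk B Ordinal.omega0) (rnm A) (rnm A) (rnm A)) _ ?_ U h m hm
  intro V hV k
  have h1 := V.mem_of_iInf hV k
  have hd2 : FDef fun (M : Type 1) E w => E (w 1) (w 0) ∧ E (w 0) (w 2) :=
    (FDef.mem 1 0).and (FDef.mem 0 2)
  obtain ⟨n, hn1, hn2⟩ := bex_om' hd2 (psdb_w (chk B (k : Ordinal.{0})) (rnm A) (rnm A) (rnm A))
    (fun n => ⨆ (_ : k < n), A n) (fun V' n hn => by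
      have hn' : (⨆ (_ : k < n), A n) ∈ V' := hn
      by_cases hkn : k < n
      · rw [iSup_pos hkn] at hn'
        exact ⟨(E_nn V' k n).2 hkn, (E_rnm V' A n).2 hn'⟩
      · rw [iSup_neg hkn] at hn'
        exact absurd hn' V'.bot_notMem) V h1
  exact ⟨n, hn1, hn2.1, hn2.2⟩

/-- if for all `x` the Boolean values `⨆ m, ⨅ n > m, (A n ⇨ f x n)` are `⊤` then `rnm A` is almost
contained in all elements `C` of `F`: for the ground model reals `x` in all quotients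
`∃ m ∈ ω, ∀ n ∈ ω, m ∈ n → n ∈ rnm A → ∀ C ∈ F, g(C) = x → n ∈ C` (`bex_om'`, `ball_om`), so for all
elements `x` of `Xn` (`ball_Xn`) -/
theorem almostSub_rnm (F g : BSet B) (f : (ℕ → Bool) → ℕ → B)
    (hf : ∀ (U : UF B) (x : ℕ → Bool) (n : ℕ), f x n ∈ U ↔ ∀ A, MU.E U A (MU.mk U F) →
      App (MU.E U) (MU.mk U g) A (MU.mk U (snm x)) → MU.E U (nn U n) A)
    (A : ℕ → B) (hA : ∀ x, (⨆ m, ⨅ n, ⨅ (_ : m < n), (A n ⇨ f x n)) = ⊤)
    (U : UF B)
    (h2 : InjOn (MU.E U) (MU.mk U g) (fun x => MU.E U x (MU.mk U F))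
      (fun x => MU.E U x (MU.mk U (Xn B)))) (C : MU U) (hC : MU.E U C (MU.mk U F)) :
    AlmostSub (MU.E U) (om U) (MU.mk U (rnm A)) C := by
  -- for a ground model real
  have key : ∀ (V : UF B) (x : ℕ → Bool), ∃ m, MU.E V m (om V) ∧
      ∀ n, MU.E V n (om V) → MU.E V m n → MU.E V n (MU.mk V (rnm A)) →
        ∀ C, MU.E V C (MU.mk V F) → App (MU.E V) (MU.mk V g) C (MU.mk V (snm x)) →
          MU.E V n C := by
    intro V x
    -- `0 = m`, `1 = ω`, `2 = rnm A`, `3 = F`, `4 = g`, `5 = x`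
    let w : ℕ → BSet B := scons (chk B Ordinal.omega0)
      (psdb_w (rnm A) F g (snm x))
    have hd1 : FDef fun (M : Type 1) E w => ∀ n, E n (w 1) → E (w 0) n → E n (w 2) →
        ∀ C, E C (w 3) → App E (w 4) C (w 5) → E n C :=
      FDef.all (P := fun _ E w => E (w 0) (w 2) → E (w 1) (w 0) → E (w 0) (w 3) →
          ∀ C, E C (w 4) → App E (w 5) C (w 6) → E (w 0) C)
        ((FDef.mem 0 2).imp ((FDef.mem 1 0).imp ((FDef.mem 0 3).imp
          (FDef.all (P := fun _ E w => E (w 0) (w 5) → App E (w 6) (w 0) (w 7) → E (w 1) (w 0))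
            ((FDef.mem 0 5).imp ((def_app 6 0 7).imp (FDef.mem 1 0)))))))
    refine bex_om' hd1 w (fun m => ⨅ n, ⨅ (_ : m < n), (A n ⇨ f x n)) (fun V' m hm => ?_) V
      (by rw [hA x]; exact V.top_mem)
    show ∀ n, MU.E V' n (om V') → MU.E V' (nn V' m) n → MU.E V' n (MU.mk V' (rnm A)) →
        ∀ C, MU.E V' C (MU.mk V' F) → App (MU.E V') (MU.mk V' g) C (MU.mk V' (snm x)) →
          MU.E V' n C
    intro n hn
    -- `0 = n`, `1 = m`, `2 = rnm A`, `3 = F`, `4 = g`, `5 = x`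
    let w' : ℕ → BSet B := scons (chk B (m : Ordinal.{0}))
      (psdb_w (rnm A) F g (snm x))
    have hd2 : FDef fun (M : Type 1) E w => E (w 1) (w 0) → E (w 0) (w 2) →
        ∀ C, E C (w 3) → App E (w 4) C (w 5) → E (w 0) C :=
      (FDef.mem 1 0).imp ((FDef.mem 0 2).imp
        (FDef.all (P := fun _ E w => E (w 0) (w 4) → App E (w 5) (w 0) (w 6) → E (w 1) (w 0))
          ((FDef.mem 0 4).imp ((def_app 5 0 6).imp (FDef.mem 1 0)))))
    refine ball_om hd2 w' _ (fun V'' hV'' k => ?_) V' hm n hn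
    show MU.E V'' (nn V'' m) (nn V'' k) → MU.E V'' (nn V'' k) (MU.mk V'' (rnm A)) →
        ∀ C, MU.E V'' C (MU.mk V'' F) → App (MU.E V'') (MU.mk V'' g) C (MU.mk V'' (snm x)) →
          MU.E V'' (nn V'' k) C
    intro h3 h4 C' hC' hC''
    have h5 : m < k := (E_nn V'' m k).1 h3
    have h6 : A k ∈ V'' := (E_rnm V'' A k).1 h4
    have h7 : (⨅ n, ⨅ (_ : m < n), (A n ⇨ f x n)) ∈ V'' := hV''
    have h8 := V''.mem_of_iInf (V''.mem_of_iInf h7 k) h5
    exact (hf V'' x k).1 (V''.himp_mem_iff.1 h8 h6) C' hC' hC''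
  -- all elements of `Xn`
  let w : ℕ → BSet B := scons (chk B Ordinal.omega0) (psdb_w (rnm A) F g g)
  have hd : FDef fun (M : Type 1) E w => ∃ m, E m (w 1) ∧
      ∀ n, E n (w 1) → E m n → E n (w 2) → ∀ C, E C (w 3) → App E (w 4) C (w 0) → E n C :=
    FDef.ex (P := fun _ E w => E (w 0) (w 2) ∧
        ∀ n, E n (w 2) → E (w 0) n → E n (w 3) → ∀ C, E C (w 4) → App E (w 5) C (w 1) → E n C)
      ((FDef.mem 0 2).and
        (FDef.all (P := fun _ E w => E (w 0) (w 3) → E (w 1) (w 0) → E (w 0) (w 4) →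
            ∀ C, E C (w 5) → App E (w 6) C (w 2) → E (w 0) C)
          ((FDef.mem 0 3).imp ((FDef.mem 1 0).imp ((FDef.mem 0 4).imp
            (FDef.all (P := fun _ E w => E (w 0) (w 6) → App E (w 7) (w 0) (w 3) →
                E (w 1) (w 0))
              ((FDef.mem 0 6).imp ((def_app 7 0 3).imp (FDef.mem 1 0)))))))))
  obtain ⟨y, hy1, hy2⟩ := h2.1 C hC
  obtain ⟨m, hm1, hm2⟩ : ∃ m, MU.E U m (om U) ∧
      ∀ n, MU.E U n (om U) → MU.E U m n → MU.E U n (MU.mk U (rnm A)) →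
        ∀ C, MU.E U C (MU.mk U F) → App (MU.E U) (MU.mk U g) C y → MU.E U n C :=
    ball_Xn hd w (fun V x => key V x) U y hy1
  exact ⟨m, hm1, fun n hn1 hn2 hn3 => hm2 n hn1 hn2 hn3 C hC hy2⟩

end HM
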